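import Pool.Agent.W793.SCH.Stm

/-!
# Bounds for the heat kernel on the integers by tilting
-/

open MeasureTheory Complex

namespace Pool.Agent.W453.SCH

noncomputable section

/-- the factor of the difference of order `r` -/
def w (r : ℕ) (z : ℂ) : ℂ :=
  if r = 0 then 1 else if r = 1 then exp (I * z) - 1 else
    -((exp (I * z) - 1) * (exp (-(I * z)) - 1))

/-- the integrand -/
def F (r : ℕ) (t : ℝ) (n : ℤ) (z : ℂ) : ℂ :=
  exp (I * (n * z)) * w r z * exp (-(t * (2 - 2 * cos z)))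

theorem w_diff (r : ℕ) : Differentiable ℂ (w r) := by
  unfold w
  split_ifs <;> fun_prop

theorem F_diff (r : ℕ) (t : ℝ) (n : ℤ) : Differentiable ℂ (F r t n) := by
  unfold F
  have := w_diff r
  fun_prop

theorem exp_per (n : ℤ) (z : ℂ) : exp (I * (n * (z + 2 * Real.pi))) = exp (I * (n * z)) := by
  have : I * (n * (z + 2 * Real.pi)) = I * (n * z) + n * (2 * Real.pi * I) := by ring
  rw [this, exp_periodic.int_mul n]

theorem exp_per1 (z : ℂ) : exp (I * (z + 2 * Real.pi)) = exp (I * z) := by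
  have := exp_per 1 z
  simpa using this

theorem exp_per2 (z : ℂ) : exp (-(I * (z + 2 * Real.pi))) = exp (-(I * z)) := by
  rw [Complex.exp_neg, Complex.exp_neg, exp_per1]

theorem F_per (r : ℕ) (t : ℝ) (n : ℤ) (z : ℂ) : F r t n (z + 2 * Real.pi) = F r t n z := by
  unfold F w
  rw [exp_per, exp_per1, exp_per2, Complex.cos_add_two_pi]

theorem shift (r : ℕ) (t : ℝ) (n : ℤ) (a : ℝ) :
    ∫ x in (-Real.pi)..Real.pi, F r t n (x : ℂ) =
      ∫ x in (-Real.pi)..Real.pi, F r t n (x + a * I) := by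
  have h := Complex.integral_boundary_rect_eq_zero_of_differentiableOn (F r t n)
    (-Real.pi : ℂ) (Real.pi + a * I) ((F_diff r t n).differentiableOn)
  have e1 : (-Real.pi : ℂ).re = -Real.pi := by simp
  have e2 : (-Real.pi : ℂ).im = 0 := by simp
  have e3 : (Real.pi + a * I : ℂ).re = Real.pi := by simp
  have e4 : (Real.pi + a * I : ℂ).im = a := by simp
  rw [e1, e2, e3, e4] at h
  have h5 : ∀ y : ℝ, F r t n ((Real.pi : ℝ) + y * I) = F r t n (((-Real.pi : ℝ) : ℂ) + y * I) := by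
    intro y
    rw [← F_per r t n (((-Real.pi : ℝ) : ℂ) + y * I)]
    congr 1
    push_cast
    ring
  simp only [h5] at h
  have h6 : (∫ x in (-Real.pi)..Real.pi, F r t n ((x : ℂ) + ((0 : ℝ) : ℂ) * I)) =
      ∫ x in (-Real.pi)..Real.pi, F r t n (x : ℂ) := by
    congr 1
    ext x
    simp
  rw [h6] at h
  have h7 : (∫ x in (-Real.pi)..Real.pi, F r t n (x : ℂ)) -
      (∫ x in (-Real.pi)..Real.pi, F r t n (x + a * I)) = 0 := by
    simpa using h
  exact sub_eq_zero.1 h7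

theorem F0_re (t : ℝ) (n : ℤ) (x : ℝ) : (F 0 t n (x : ℂ)).re =
    Real.cos (n * x) * Real.exp (-(t * (2 - 2 * Real.cos x))) := by
  have h1 : F 0 t n (x : ℂ) = exp (((n * x : ℝ) : ℂ) * I) *
      ((Real.exp (-(t * (2 - 2 * Real.cos x))) : ℝ) : ℂ) := by
    unfold F w
    rw [if_pos rfl, mul_one]
    push_cast
    congr 2
    ring
  rw [h1, Complex.re_mul_ofReal, Complex.exp_ofReal_mul_I_re]

theorem F1_eq (t : ℝ) (n : ℤ) (z : ℂ) : F 1 t n z = F 0 t (n + 1) z - F 0 t n z := by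
  unfold F w
  rw [if_neg (by norm_num), if_pos rfl, if_pos rfl]
  have : exp (I * (((n + 1 : ℤ) : ℂ) * z)) = exp (I * (n * z)) * exp (I * z) := by
    rw [← Complex.exp_add]
    congr 1
    push_cast
    ring
  rw [this]
  ring

theorem F2_eq (t : ℝ) (n : ℤ) (z : ℂ) :
    F 2 t n z = F 0 t (n + 1) z - 2 * F 0 t n z + F 0 t (n - 1) z := by
  unfold F w
  rw [if_neg (by norm_num), if_neg (by norm_num), if_pos rfl]
  have h1 : exp (I * (((n + 1 : ℤ) : ℂ) * z)) = exp (I * (n * z)) * exp (I * z) := by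
    rw [← Complex.exp_add]
    congr 1
    push_cast
    ring
  have h2 : exp (I * (((n - 1 : ℤ) : ℂ) * z)) = exp (I * (n * z)) * exp (-(I * z)) := by
    rw [← Complex.exp_add]
    congr 1
    push_cast
    ring
  have h3 : exp (I * z) * exp (-(I * z)) = 1 := by
    rw [← Complex.exp_add]
    simp
  rw [h1, h2]
  linear_combination (-(exp (I * (n * z)) * exp (-(t * (2 - 2 * cos z))))) * h3

theorem F_int (r : ℕ) (t : ℝ) (n : ℤ) (a b : ℝ) :
    IntervalIntegrable (fun x : ℝ => F r t n (x : ℂ)) volume a b := by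
  apply Continuous.intervalIntegrable
  exact (F_diff r t n).continuous.comp Complex.continuous_ofReal

theorem hk_eq (t : ℝ) (n : ℤ) : W793.SCH.hk t n =
    1 / (2 * Real.pi) * (∫ x in (-Real.pi)..Real.pi, F 0 t n (x : ℂ)).re := by
  have h := Complex.reCLM.intervalIntegral_comp_comm (F_int 0 t n (-Real.pi) Real.pi)
  simp only [Complex.reCLM_apply] at h
  rw [← h]
  unfold W793.SCH.hk
  congr 1
  congr 1
  ext x
  rw [F0_re]

theorem hd_eq (r : ℕ) (hr : r < 3) (t : ℝ) (n : ℤ) : W793.SCH.hd r t n =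
    1 / (2 * Real.pi) * (∫ x in (-Real.pi)..Real.pi, F r t n (x : ℂ)).re := by
  unfold W793.SCH.hd
  interval_cases r
  · simp only [if_true, hk_eq]
  · rw [if_neg (by norm_num), if_pos rfl, hk_eq, hk_eq]
    simp only [F1_eq]
    rw [intervalIntegral.integral_sub (F_int _ _ _ _ _) (F_int _ _ _ _ _), Complex.sub_re]
    ring
  · rw [if_neg (by norm_num), if_neg (by norm_num), hk_eq, hk_eq, hk_eq]
    simp only [F2_eq]
    rw [intervalIntegral.integral_add ((F_int _ _ _ _ _).sub ((F_int _ _ _ _ _).const_mul 2))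
      (F_int _ _ _ _ _),
      intervalIntegral.integral_sub (F_int _ _ _ _ _) ((F_int _ _ _ _ _).const_mul 2),
      intervalIntegral.integral_const_mul]
    simp only [Complex.sub_re, Complex.add_re, Complex.mul_re, Complex.re_ofNat, Complex.im_ofNat,
      zero_mul, sub_zero]
    ring

theorem hd_le (r : ℕ) (hr : r < 3) (t : ℝ) (n : ℤ) (a : ℝ) : |W793.SCH.hd r t n| ≤
    1 / (2 * Real.pi) * ‖∫ x in (-Real.pi)..Real.pi, F r t n (x + a * I)‖ := by
  rw [hd_eq r hr, shift r t n a, abs_mul, abs_of_pos (by positivity)]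
  gcongr
  exact Complex.abs_re_le_norm _

theorem exp1 (u : ℂ) (hu : ‖u‖ ≤ Real.pi + 1) :
    ‖exp u - 1‖ ≤ Real.exp (Real.pi + 1) * ‖u‖ := by
  have h := Complex.norm_exp_sub_sum_le_norm_mul_exp u 1
  simp only [Finset.range_one, Finset.sum_singleton, pow_zero, Nat.factorial_zero, Nat.cast_one,
    div_one, pow_one] at h
  calc ‖exp u - 1‖ ≤ ‖u‖ * Real.exp ‖u‖ := h
    _ ≤ ‖u‖ * Real.exp (Real.pi + 1) := by gcongr
    _ = _ := mul_comm _ _

theorem z_norm (x a : ℝ) : ‖(x : ℂ) + a * I‖ ≤ |x| + |a| := by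
  refine (norm_add_le _ _).trans ?_
  rw [norm_mul, Complex.norm_I, mul_one, Complex.norm_real, Complex.norm_real]
  rfl

theorem w_norm (r : ℕ) (hr : r < 3) (x a : ℝ) (hx : |x| ≤ Real.pi) (ha : |a| ≤ 1) :
    ‖w r (x + a * I)‖ ≤ (Real.exp (Real.pi + 1) * (|x| + |a|)) ^ r := by
  have hz := z_norm x a
  have h1 : ‖exp (I * (x + a * I)) - 1‖ ≤ Real.exp (Real.pi + 1) * (|x| + |a|) := by
    have h2 : ‖I * ((x : ℂ) + a * I)‖ ≤ |x| + |a| := by
      rw [norm_mul, Complex.norm_I, one_mul]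
      exact hz
    refine (exp1 _ (h2.trans (by linarith))).trans ?_
    gcongr
  have h3 : ‖exp (-(I * (x + a * I))) - 1‖ ≤ Real.exp (Real.pi + 1) * (|x| + |a|) := by
    have h2 : ‖-(I * ((x : ℂ) + a * I))‖ ≤ |x| + |a| := by
      rw [norm_neg, norm_mul, Complex.norm_I, one_mul]
      exact hz
    refine (exp1 _ (h2.trans (by linarith))).trans ?_
    gcongr
  unfold w
  interval_cases r
  · simp
  · rw [if_neg (by norm_num), if_pos rfl, pow_one]
    exact h1
  · rw [if_neg (by norm_num), if_neg (by norm_num), norm_neg, norm_mul, pow_two]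
    gcongr

theorem cosh_le (a : ℝ) (ha : |a| ≤ 1) : Real.cosh a ≤ 1 + a ^ 2 := by
  have h1 := Real.cosh_le_exp_half_sq a
  have h2 : a ^ 2 ≤ 1 := by
    rw [← sq_abs]
    nlinarith [abs_nonneg a]
  have h3 := Real.exp_bound_div_one_sub_of_interval (x := a ^ 2 / 2) (by positivity) (by linarith)
  refine h1.trans (h3.trans ?_)
  rw [div_le_iff₀ (by linarith)]
  nlinarith [sq_nonneg a]

theorem e_norm (t : ℝ) (ht : 0 ≤ t) (x a : ℝ) (hx : |x| ≤ Real.pi) (ha : |a| ≤ 1) :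
    ‖exp (-(t * (2 - 2 * cos ((x : ℂ) + a * I))))‖ ≤
      Real.exp (2 * t * (a ^ 2 - 2 / Real.pi ^ 2 * x ^ 2)) := by
  rw [Complex.norm_exp]
  apply Real.exp_le_exp.2
  have h1 : (cos ((x : ℂ) + a * I)).re = Real.cos x * Real.cosh a := by
    rw [Complex.cos_add_mul_I, ← Complex.ofReal_cos, ← Complex.ofReal_cosh, ← Complex.ofReal_sin,
      ← Complex.ofReal_sinh]
    simp
    left
    exact Complex.cos_ofReal_re x
  have h2 : (-((t : ℂ) * (2 - 2 * cos ((x : ℂ) + a * I)))).re =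
      -(t * (2 - 2 * (cos ((x : ℂ) + a * I)).re)) := by
    simp
  rw [h2, h1]
  have h3 := Real.cos_le_one_sub_mul_cos_sq hx
  have h4 := cosh_le a ha
  have h5 := Real.one_le_cosh a
  have h6 := Real.cos_le_one x
  have h7 : Real.cos x * Real.cosh a - 1 ≤ a ^ 2 - 2 / Real.pi ^ 2 * x ^ 2 := by
    nlinarith
  nlinarith

theorem F_norm (r : ℕ) (hr : r < 3) (t : ℝ) (ht : 0 ≤ t) (n : ℤ) (x a : ℝ) (hx : |x| ≤ Real.pi)
    (ha : |a| ≤ 1) : ‖F r t n (x + a * I)‖ ≤ Real.exp (-(n * a)) *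
      (Real.exp (Real.pi + 1) * (|x| + |a|)) ^ r *
        Real.exp (2 * t * (a ^ 2 - 2 / Real.pi ^ 2 * x ^ 2)) := by
  unfold F
  rw [norm_mul, norm_mul]
  have h1 : ‖exp (I * (n * ((x : ℂ) + a * I)))‖ = Real.exp (-(n * a)) := by
    rw [Complex.norm_exp]
    congr 1
    simp
  rw [h1]
  have h2 := w_norm r hr x a hx ha
  have h3 := e_norm t ht x a hx ha
  gcongr

/-- the Gaussian factor absorbs the polynomial -/
theorem absorb (r : ℕ) (hr : r < 3) (t : ℝ) (ht : 0 ≤ t) (x a : ℝ) (hx : |x| ≤ Real.pi) :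
    (|x| + |a|) ^ r * Real.exp (2 * t * (-(2 / Real.pi ^ 2 * x ^ 2))) ≤
      Real.exp 4 * Real.pi ^ 2 * ((1 + Real.sqrt (1 + t) * |a|) / Real.sqrt (1 + t)) ^ r *
        Real.exp (-(2 / Real.pi ^ 2 * (1 + t)) * x ^ 2) := by
  set s := Real.sqrt (1 + t) with hs
  have hs0 : 0 < s := Real.sqrt_pos.2 (by linarith)
  have hs2 : s ^ 2 = 1 + t := Real.sq_sqrt (by linarith)
  have h1 : (|x| + |a|) ^ r ≤ ((1 + s * |a|) / s) ^ r * (1 + s * |x|) ^ 2 := by
    have h2 : |x| + |a| ≤ (1 + s * |a|) / s * (1 + s * |x|) := by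
      rw [div_mul_eq_mul_div, le_div_iff₀ hs0]
      nlinarith [mul_nonneg (mul_nonneg hs0.le (abs_nonneg a)) (mul_nonneg hs0.le (abs_nonneg x))]
    calc (|x| + |a|) ^ r ≤ ((1 + s * |a|) / s * (1 + s * |x|)) ^ r := by gcongr
      _ = ((1 + s * |a|) / s) ^ r * (1 + s * |x|) ^ r := mul_pow _ _ _
      _ ≤ _ := by
        gcongr
        · have : 0 ≤ s * |x| := by positivity
          linarith
        · omega
  have h3 : (1 + s * |x|) ^ 2 ≤ 2 * (1 + (1 + t) * x ^ 2) := by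
    have : (s * |x|) ^ 2 = (1 + t) * x ^ 2 := by rw [mul_pow, hs2, sq_abs]
    nlinarith [sq_nonneg (1 - s * |x|)]
  have hpi : 0 < Real.pi := Real.pi_pos
  have h4 : 2 * (1 + (1 + t) * x ^ 2) ≤
      Real.pi ^ 2 * Real.exp (2 / Real.pi ^ 2 * (1 + t) * x ^ 2) := by
    have h5 := Real.add_one_le_exp (2 / Real.pi ^ 2 * (1 + t) * x ^ 2)
    have h6 : Real.pi ^ 2 * (2 / Real.pi ^ 2 * (1 + t) * x ^ 2 + 1) =
        2 * ((1 + t) * x ^ 2) + Real.pi ^ 2 := by
      field_simp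
    have h7 : (2 : ℝ) ≤ Real.pi ^ 2 := by nlinarith [Real.pi_gt_three]
    nlinarith [mul_le_mul_of_nonneg_left h5 (sq_nonneg Real.pi)]
  have h8 : Real.exp (2 * t * (-(2 / Real.pi ^ 2 * x ^ 2))) =
      Real.exp (4 / Real.pi ^ 2 * x ^ 2) * Real.exp (-(4 / Real.pi ^ 2 * (1 + t)) * x ^ 2) := by
    rw [← Real.exp_add]
    congr 1
    ring
  have h9 : Real.exp (4 / Real.pi ^ 2 * x ^ 2) ≤ Real.exp 4 := by
    apply Real.exp_le_exp.2
    have : x ^ 2 ≤ Real.pi ^ 2 := by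
      rw [← sq_abs x]
      gcongr
    rw [div_mul_eq_mul_div, div_le_iff₀ (by positivity)]
    linarith
  rw [h8]
  calc (|x| + |a|) ^ r * (Real.exp (4 / Real.pi ^ 2 * x ^ 2) *
        Real.exp (-(4 / Real.pi ^ 2 * (1 + t)) * x ^ 2))
      ≤ (((1 + s * |a|) / s) ^ r * (Real.pi ^ 2 * Real.exp (2 / Real.pi ^ 2 * (1 + t) * x ^ 2))) *
        (Real.exp 4 * Real.exp (-(4 / Real.pi ^ 2 * (1 + t)) * x ^ 2)) := by
        have h10 := h1.trans (mul_le_mul_of_nonneg_left (h3.trans h4)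
          (pow_nonneg (div_nonneg (by positivity) hs0.le) r))
        gcongr
    _ = Real.exp 4 * Real.pi ^ 2 * ((1 + s * |a|) / s) ^ r *
        (Real.exp (2 / Real.pi ^ 2 * (1 + t) * x ^ 2) *
          Real.exp (-(4 / Real.pi ^ 2 * (1 + t)) * x ^ 2)) := by ring
    _ = _ := by
      rw [← Real.exp_add]
      congr 2
      ring

theorem absF (r : ℕ) (hr : r < 3) (t : ℝ) (ht : 0 ≤ t) (n : ℤ) (x a : ℝ) (hx : |x| ≤ Real.pi)
    (ha : |a| ≤ 1) : ‖F r t n (x + a * I)‖ ≤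
      (Real.exp (Real.pi + 1) ^ 2 * (Real.exp 4 * Real.pi ^ 2) * Real.exp (-(n * a) + 2 * t * a ^ 2) *
        ((1 + Real.sqrt (1 + t) * |a|) / Real.sqrt (1 + t)) ^ r) *
        Real.exp (-(2 / Real.pi ^ 2 * (1 + t)) * x ^ 2) := by
  have h1 := F_norm r hr t ht n x a hx ha
  have h2 := absorb r hr t ht x a hx
  have h3 : Real.exp (2 * t * (a ^ 2 - 2 / Real.pi ^ 2 * x ^ 2)) =
      Real.exp (2 * t * a ^ 2) * Real.exp (2 * t * (-(2 / Real.pi ^ 2 * x ^ 2))) := by
    rw [← Real.exp_add]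
    congr 1
    ring
  have h4 : Real.exp (Real.pi + 1) ^ r ≤ Real.exp (Real.pi + 1) ^ 2 := by
    apply pow_le_pow_right₀
    · exact Real.one_le_exp (by positivity)
    · omega
  rw [h3, mul_pow] at h1
  rw [Real.exp_add (-(n * a)) (2 * t * a ^ 2)]
  calc ‖F r t n (x + a * I)‖ ≤ Real.exp (-(n * a)) *
        (Real.exp (Real.pi + 1) ^ r * (|x| + |a|) ^ r) *
          (Real.exp (2 * t * a ^ 2) * Real.exp (2 * t * (-(2 / Real.pi ^ 2 * x ^ 2)))) := h1
    _ = (Real.exp (-(n * a)) * Real.exp (2 * t * a ^ 2)) * (Real.exp (Real.pi + 1) ^ r *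
        ((|x| + |a|) ^ r * Real.exp (2 * t * (-(2 / Real.pi ^ 2 * x ^ 2))))) := by ring
    _ ≤ (Real.exp (-(n * a)) * Real.exp (2 * t * a ^ 2)) * (Real.exp (Real.pi + 1) ^ 2 *
        (Real.exp 4 * Real.pi ^ 2 * ((1 + Real.sqrt (1 + t) * |a|) / Real.sqrt (1 + t)) ^ r *
        Real.exp (-(2 / Real.pi ^ 2 * (1 + t)) * x ^ 2))) := by
      gcongr
    _ = _ := by ring

theorem gauss_le (b : ℝ) (hb : 0 < b) :
    ∫ x in (-Real.pi)..Real.pi, Real.exp (-b * x ^ 2) ≤ Real.sqrt (Real.pi / b) := by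
  rw [← integral_gaussian b, intervalIntegral.integral_of_le (by linarith [Real.pi_pos])]
  apply setIntegral_le_integral (integrable_exp_neg_mul_sq hb)
  exact Filter.Eventually.of_forall fun x => (Real.exp_pos _).le

/-- the bound for all tilts -/
theorem tilt (r : ℕ) (hr : r < 3) (t : ℝ) (ht : 0 ≤ t) (n : ℤ) (a : ℝ) (ha : |a| ≤ 1) :
    |W793.SCH.hd r t n| ≤ (Real.exp (Real.pi + 1) ^ 2 * (Real.exp 4 * Real.pi ^ 2) *
      Real.sqrt (Real.pi ^ 3)) / Real.sqrt (1 + t) ^ (r + 1) *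
      (Real.exp (-(n * a) + 2 * t * a ^ 2) * (1 + Real.sqrt (1 + t) * |a|) ^ r) := by
  set s := Real.sqrt (1 + t) with hs
  have hs0 : 0 < s := Real.sqrt_pos.2 (by linarith)
  set b := 2 / Real.pi ^ 2 * (1 + t) with hb
  have hpi : 0 < Real.pi := Real.pi_pos
  have hb0 : 0 < b := by positivity
  set K := Real.exp (Real.pi + 1) ^ 2 * (Real.exp 4 * Real.pi ^ 2) with hK
  have hK0 : 0 < K := by positivity
  set E := Real.exp (-(n * a) + 2 * t * a ^ 2) with hE
  have hE0 : 0 < E := Real.exp_pos _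
  have h1 := hd_le r hr t n a
  have h2 : ‖∫ x in (-Real.pi)..Real.pi, F r t n (x + a * I)‖ ≤
      ∫ x in (-Real.pi)..Real.pi, (K * E * ((1 + s * |a|) / s) ^ r) * Real.exp (-b * x ^ 2) := by
    apply intervalIntegral.norm_integral_le_of_norm_le (by linarith)
    · filter_upwards with x hx
      have hx' : |x| ≤ Real.pi := abs_le.2 ⟨hx.1.le, hx.2⟩
      exact absF r hr t ht n x a hx' ha
    · apply Continuous.intervalIntegrable
      fun_prop
  rw [intervalIntegral.integral_const_mul] at h2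
  have h3 := gauss_le b hb0
  have h4 : Real.sqrt (Real.pi / b) ≤ Real.sqrt (Real.pi ^ 3) / s := by
    rw [hs, ← Real.sqrt_div (by positivity)]
    apply Real.sqrt_le_sqrt
    rw [hb, div_le_div_iff₀ (by positivity) (by linarith)]
    have : Real.pi ^ 3 * (2 / Real.pi ^ 2 * (1 + t)) = 2 * (Real.pi * (1 + t)) := by
      field_simp
    rw [this]
    nlinarith [mul_pos hpi (by linarith : 0 < 1 + t)]
  have h5 : 1 / (2 * Real.pi) ≤ 1 := by
    rw [div_le_one (by positivity)]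
    linarith [Real.pi_gt_three]
  have hc : 0 ≤ K * E * ((1 + s * |a|) / s) ^ r := by positivity
  calc |W793.SCH.hd r t n| ≤ 1 / (2 * Real.pi) *
        ‖∫ x in (-Real.pi)..Real.pi, F r t n (x + a * I)‖ := h1
    _ ≤ 1 * ((K * E * ((1 + s * |a|) / s) ^ r) * (Real.sqrt (Real.pi ^ 3) / s)) := by
      have h6 := h2.trans (mul_le_mul_of_nonneg_left (h3.trans h4) hc)
      gcongr
    _ = _ := by
      rw [div_pow]
      field_simp
      ring

/-- polynomials below the exponential -/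
theorem poly (k : ℕ) (y : ℝ) (hy : 0 ≤ y) :
    (1 + y) ^ k ≤ (8 ^ k * (k.factorial : ℝ) * Real.exp 1) * Real.exp (y / 8) := by
  have h := Real.pow_div_factorial_le_exp ((1 + y) / 8) (by positivity) k
  rw [div_le_iff₀ (by positivity), div_pow, div_le_iff₀ (by positivity)] at h
  refine h.trans ?_
  have h2 : Real.exp ((1 + y) / 8) ≤ Real.exp 1 * Real.exp (y / 8) := by
    rw [← Real.exp_add]
    apply Real.exp_le_exp.2
    linarith
  calc Real.exp ((1 + y) / 8) * (k.factorial : ℝ) * 8 ^ k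
      ≤ (Real.exp 1 * Real.exp (y / 8)) * (k.factorial : ℝ) * 8 ^ k := by gcongr
    _ = _ := by ring

theorem core (M : ℕ) : ∃ D : ℝ, 0 < D ∧ ∀ r < 3, ∀ t : ℝ, 0 ≤ t → ∀ n : ℤ, ∃ a : ℝ, |a| ≤ 1 ∧
    Real.exp (-(n * a) + 2 * t * a ^ 2) * (1 + Real.sqrt (1 + t) * |a|) ^ r ≤
      D * ((1 + t) / (1 + t + n ^ 2)) ^ M := by
  set P : ℕ → ℝ := fun k => 8 ^ k * (k.factorial : ℝ) * Real.exp 1 with hP
  have hP0 : ∀ k, 0 < P k := fun k => by positivity
  refine ⟨2 * P (M + 1) + 2 * P (2 * M + 1), by have := hP0 (M + 1); have := hP0 (2 * M + 1); linarith,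
    fun r hr t ht n => ?_⟩
  set s := Real.sqrt (1 + t) with hs
  have ht1 : 0 < 1 + t := by linarith
  have hs0 : 0 < s := Real.sqrt_pos.2 ht1
  have hs2 : s ^ 2 = 1 + t := Real.sq_sqrt ht1.le
  set N : ℝ := |(n : ℝ)| with hN
  have hN0 : 0 ≤ N := abs_nonneg _
  have hN2 : (n : ℝ) ^ 2 = N ^ 2 := (sq_abs _).symm
  set x : ℝ := N ^ 2 / (1 + t) with hx
  have hx0 : 0 ≤ x := by positivity
  have hq : ((1 + t) / (1 + t + (n : ℝ) ^ 2)) ^ M = 1 / (1 + x) ^ M := by
    rw [hN2, ← one_div_pow]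
    congr 1
    rw [hx]
    field_simp
  have hq0 : 0 < (1 + x) ^ M := by positivity
  rw [hq]
  have hPa := hP0 (M + 1)
  have hPb := hP0 (2 * M + 1)
  by_cases hc : N ≤ 4 * (1 + t)
  · refine ⟨n / (4 * (1 + t)), ?_, ?_⟩
    · rw [abs_div, abs_of_pos (by linarith : 0 < 4 * (1 + t)), div_le_one (by linarith)]
      exact hc
    · have h1 : Real.exp (-(n * (n / (4 * (1 + t)))) + 2 * t * (n / (4 * (1 + t))) ^ 2) ≤
          Real.exp (-(x / 8)) := by
        apply Real.exp_le_exp.2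
        have h2 : (n : ℝ) * (n / (4 * (1 + t))) = x / 4 := by
          rw [hx, ← hN2]
          field_simp
        have h3 : 2 * t * ((n : ℝ) / (4 * (1 + t))) ^ 2 = x / 8 * (t / (1 + t)) := by
          rw [hx, ← hN2]
          field_simp
          ring
        have h4 : t / (1 + t) ≤ 1 := by
          rw [div_le_one ht1]
          linarith
        rw [h2, h3]
        nlinarith
      have h5 : (s * |(n : ℝ) / (4 * (1 + t))|) ^ 2 = x / 16 := by
        rw [mul_pow, sq_abs, hs2, hx, ← hN2]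
        field_simp
        ring
      set u := s * |(n : ℝ) / (4 * (1 + t))| with hu
      have hu0 : 0 ≤ u := by positivity
      have h6 : (1 + u) ^ r ≤ 2 * (1 + x) := by
        calc (1 + u) ^ r ≤ (1 + u) ^ 2 := by
              apply pow_le_pow_right₀ (by linarith)
              omega
          _ ≤ 2 * (1 + x) := by nlinarith [sq_nonneg (1 - u)]
      have h7 := poly (M + 1) x hx0
      have h8 : Real.exp (-(x / 8)) * Real.exp (x / 8) = 1 := by
        rw [← Real.exp_add]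
        simp
      rw [mul_one_div, le_div_iff₀ hq0]
      calc Real.exp (-(n * (n / (4 * (1 + t)))) + 2 * t * (n / (4 * (1 + t))) ^ 2) *
            (1 + u) ^ r * (1 + x) ^ M ≤ Real.exp (-(x / 8)) * (2 * (1 + x)) * (1 + x) ^ M := by
            gcongr
        _ = 2 * Real.exp (-(x / 8)) * (1 + x) ^ (M + 1) := by ring
        _ ≤ 2 * Real.exp (-(x / 8)) * (P (M + 1) * Real.exp (x / 8)) := by
            gcongr
        _ = 2 * P (M + 1) * (Real.exp (-(x / 8)) * Real.exp (x / 8)) := by ring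
        _ = 2 * P (M + 1) := by rw [h8, mul_one]
        _ ≤ _ := by linarith
  · push Not at hc
    have hNp : 0 < N := by linarith
    have key : ∀ a : ℝ, |a| = 1 → n * a = N → |a| ≤ 1 ∧
        Real.exp (-(n * a) + 2 * t * a ^ 2) * (1 + s * |a|) ^ r ≤
          (2 * P (M + 1) + 2 * P (2 * M + 1)) * (1 / (1 + x) ^ M) := by
      intro a ha hna
      refine ⟨ha.le, ?_⟩
      have ha2 : a ^ 2 = 1 := by rw [← sq_abs, ha, one_pow]
      rw [ha, ha2, hna, mul_one, mul_one]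
      have h1 : Real.exp (-N + 2 * t) ≤ Real.exp (-(N / 8)) := by
        apply Real.exp_le_exp.2
        linarith
      have h6 : (1 + s) ^ r ≤ 2 * (1 + N) := by
        calc (1 + s) ^ r ≤ (1 + s) ^ 2 := by
              apply pow_le_pow_right₀ (by linarith)
              omega
          _ ≤ 2 * (1 + N) := by nlinarith [sq_nonneg (1 - s)]
      have h9 : (1 + x) ^ M ≤ (1 + N) ^ (2 * M) := by
        rw [pow_mul]
        have : x ≤ N ^ 2 := by
          rw [hx]
          apply div_le_self (sq_nonneg N)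
          linarith
        gcongr
        nlinarith
      have h7 := poly (2 * M + 1) N hN0
      have h8 : Real.exp (-(N / 8)) * Real.exp (N / 8) = 1 := by
        rw [← Real.exp_add]
        simp
      rw [mul_one_div, le_div_iff₀ hq0]
      calc Real.exp (-N + 2 * t) * (1 + s) ^ r * (1 + x) ^ M
          ≤ Real.exp (-(N / 8)) * (2 * (1 + N)) * (1 + N) ^ (2 * M) := by
            gcongr
        _ = 2 * Real.exp (-(N / 8)) * (1 + N) ^ (2 * M + 1) := by ring
        _ ≤ 2 * Real.exp (-(N / 8)) * (P (2 * M + 1) * Real.exp (N / 8)) := by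
            gcongr
        _ = 2 * P (2 * M + 1) * (Real.exp (-(N / 8)) * Real.exp (N / 8)) := by ring
        _ = 2 * P (2 * M + 1) := by rw [h8, mul_one]
        _ ≤ _ := by linarith
    rcases le_or_gt 0 (n : ℝ) with h0 | h0
    · exact ⟨1, key 1 (by simp) (by rw [mul_one, hN, abs_of_nonneg h0])⟩
    · exact ⟨-1, key (-1) (by simp) (by rw [hN, abs_of_neg h0]; ring)⟩

/-- Bounds for the heat kernel on the integers. -/
theorem t_HB : W793.SCH.S_HB := by
  intro M
  obtain ⟨D, hD, h⟩ := core M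
  refine ⟨(Real.exp (Real.pi + 1) ^ 2 * (Real.exp 4 * Real.pi ^ 2) * Real.sqrt (Real.pi ^ 3)) * D,
    by positivity, fun r hr t ht n => ?_⟩
  obtain ⟨a, ha, h1⟩ := h r hr t ht n
  refine (tilt r hr t ht n a ha).trans ?_
  have hs0 : 0 < Real.sqrt (1 + t) := Real.sqrt_pos.2 (by linarith)
  calc _ ≤ (Real.exp (Real.pi + 1) ^ 2 * (Real.exp 4 * Real.pi ^ 2) * Real.sqrt (Real.pi ^ 3)) /
        Real.sqrt (1 + t) ^ (r + 1) * (D * ((1 + t) / (1 + t + n ^ 2)) ^ M) := by gcongr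
    _ = _ := by ring

end

end Pool.Agent.W453.SCH
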